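import Pool.Agent.N826.IT.V

/-!
# Hooley's conjecture for all the multiples of the moduli on almost all orbits of Euler's function

Let `φ_k` be the `k`-th iterate of Euler's function and `f` a positive multiplicative function of at most polynomial growth
with `f p = p + c` for all large primes `p` (the identity, Euler's function, the sum of the divisors). There is a function
`κ(m)` tending to infinity such that for almost all `m`, with `K = κ(m)`, Hooley's asymptotic formula
`G(x, Q) = (1 + O(1 / K)) x log Q` holds for ALL `x` between `Q` and `Q (log Q)^K` and for ALL the multiples `Q = t n`,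
`t ≤ (log n)^K`, of ALL the integers `n = α f(φ_k m) + h` with `k, α, |h| ≤ K`, `h ≠ 0`.

Proof. The iterates of `φ` are not multiplicative, their values are taken with large multiplicities, and they form a very
thin set. The classification of the integers `m` by the smooth parts of the shifted primes which occur along the orbit is in
`N826/IT` (`densk`); in a class the integer `α f(φ_k m) + h` lies in the class of `h` modulo a small modulus `q`, its multiples
by `t` in the class of `t h` modulo `t q`, and the theorem of the starting files on Hooley's conjecture in the residue classes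
of every modulus (`ModuliInClasses`) is applied for every `t`.
-/

set_option autoImplicit false

namespace Pool.Agent.Results.MP_5d318d_nt.IteratedTotientModuli

open Finset Filter Topology
open Pool.Agent.Results.MP_5d318d_nt.ModuliInClasses (G)
open Pool.Agent.N826.IT.Orb (Shifted AlmostAll)

/-- `|G(x,Q) - x log Q| ≤ x log Q / (K + 1)` for ALL real `x` with `Q ≤ x ≤ Q (log Q)^K`. -/
def Hooley (K Q : ℕ) : Prop :=
  ∀ x : ℝ, (Q : ℝ) ≤ x → x ≤ Q * Real.log Q ^ K → |G x Q - x * Real.log Q| ≤ 1 / ((K : ℝ) + 1) * (x * Real.log Q)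

/-- **Hooley's conjecture along the orbits of Euler's function.** (1) Let `f` be a positive multiplicative function of at
most polynomial growth with `f p = p + c` for all large primes `p`. There is a function `κ` tending to infinity such that
for almost all `m`, with `K = κ m`, ALL integers `n = α f(φ_k m) + h` with `k ≤ K`, `1 ≤ α ≤ K`, `0 < |h| ≤ K` are positive,
and ALL their multiples `Q = t n` with `1 ≤ t ≤ (log n)^K` satisfy `|G(x,Q) - x log Q| ≤ x log Q / (K + 1)` for ALL real `x`
with `Q ≤ x ≤ Q (log Q)^K`. (2) The identity, Euler's function and the sum of the divisors are examples of such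
functions `f`. -/
theorem result :
    (∀ (f : ℕ → ℕ) (c : ℤ), Shifted f c → ∃ κ : ℕ → ℕ, Tendsto κ atTop atTop ∧
      AlmostAll (fun m => ∀ k α : ℕ, ∀ h : ℤ, k ≤ κ m → 1 ≤ α → α ≤ κ m → |h| ≤ κ m → h ≠ 0 →
        0 < (α : ℤ) * f (Nat.totient^[k] m) + h ∧
        ∀ n : ℕ, (n : ℤ) = (α : ℤ) * f (Nat.totient^[k] m) + h → ∀ t : ℕ, 1 ≤ t → (t : ℝ) ≤ Real.log n ^ κ m →
          Hooley (κ m) (t * n))) ∧
    (Shifted (fun m => m) 0 ∧ Shifted Nat.totient (-1) ∧ Shifted (fun m => ∑ d ∈ m.divisors, d) 1) := by
  refine ⟨fun f c hf => ?_, ⟨Pool.Agent.N826.IT.Orb.shifted_id, Pool.Agent.N826.IT.Orb.shifted_totient,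
    Pool.Agent.N826.IT.Orb.shifted_sigma⟩⟩
  obtain ⟨κ, hκ, h⟩ := Pool.Agent.N826.IT.Orb.orbits _ Pool.Agent.N826.IT.Orb.rare_VM hf
  refine ⟨κ, hκ, Pool.Agent.N826.IT.Orb.almostAll_mono h (fun m hm k α h hk hα1 hα hh hne => ?_)⟩
  obtain ⟨h1, h2⟩ := hm k α h hk hα1 hα hh hne
  refine ⟨by omega, fun n hn t ht1 ht2 => ?_⟩
  rw [← hn, Int.toNat_natCast] at h2
  exact h2 t ht1 ht2

end Pool.Agent.Results.MP_5d318d_nt.IteratedTotientModuli
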