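import Pool.Agent.N193.PS.Near

/-!
# Hooley's asymptotic formula for the variance, for all moduli near the values of functions of non-integral index

From Mathlib: `ContDiffAt ℝ ⊤`: infinitely differentiable at a point; `iteratedDeriv m f`: the derivative of order `m`;
`⌊y⌋₊`: the integer part of `y`, and `0` for `y < 0`; `z.toNat`: the integer `z` if it is not negative, and `0` otherwise.

Method: the characteristic function of the integer part of `f n` is small at all frequencies which are not close to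
integers (van der Corput differencing and the inequality of Kusmin and Landau on dyadic blocks for all orders of
differencing, a discrete Fejer kernel for the passage to integer parts), and the values are not concentrated on short
intervals. The passage from such exponential sums to the variance for almost all moduli is from the starting files
(`Pool.Agent.Y958`, `Pool.Agent.Y885`).
-/

set_option autoImplicit false

namespace Pool.Agent.Results.MP_5d318d_nt.NonIntegralOrderModuli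

open Finset Filter

/-- `f` is smoothly varying of index `c`: it is infinitely differentiable and positive for large arguments, and
`t ^ m f⁽ᵐ⁾(t) / f(t) → c (c - 1) ... (c - m + 1)` for every `m`. -/
def SmoothlyVarying (c : ℝ) (f : ℝ → ℝ) : Prop :=
  (∃ t₀ : ℝ, ∀ t > t₀, ContDiffAt ℝ ((⊤ : ℕ∞) : WithTop ℕ∞) f t ∧ 0 < f t) ∧
  ∀ m : ℕ, Tendsto (fun t => t ^ m * iteratedDeriv m f t / f t) atTop (nhds (∏ i ∈ range m, (c - i)))

/-- `ψ(y; q, a) = ∑_{n ≤ y, n ≡ a mod q} Λ(n)` for `0 ≤ a < q`. -/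
noncomputable def psiAP (y : ℝ) (q a : ℕ) : ℝ :=
  ∑ n ∈ (Icc 1 ⌊y⌋₊).filter (fun n => n % q = a), ArithmeticFunction.vonMangoldt n

/-- The variance `G(y,q) = ∑_{a mod q, (a,q)=1} (ψ(y;q,a) - y/φ(q))²`. -/
noncomputable def G (y : ℝ) (q : ℕ) : ℝ :=
  ∑ a ∈ (range q).filter (fun a => Nat.Coprime a q), (psiAP y q a - y / (Nat.totient q : ℝ)) ^ 2

/-- `|G(y,Q) - y log Q| ≤ ε y log Q` for all real `y` with `Q ≤ y ≤ Q (log N) ^ A`. -/
def Good (ε : ℝ) (A N Q : ℕ) : Prop :=
  ∀ y : ℝ, (Q : ℝ) ≤ y → y ≤ Q * Real.log N ^ A → |G y Q - y * Real.log Q| ≤ ε * (y * Real.log Q)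

open Pool.Agent.N193.PS

open Classical in
/-- **(1)** Let `f` be smoothly varying of an index `c > 0` which is not an integer, and let `κ ≠ 0`, `B`, `A`, `U`, `W`, `a` and
`0 < ε ≤ 1` be fixed. Let `N` be large, let `x` be such that `f n ≤ N` for the integers `1 ≤ n ≤ x` and
`N ≤ f x log ^ a N`, and let `|c₀| ≤ B N`. Then all the integers `1 ≤ n ≤ x`, with at most `x / log ^ U N` exceptions, have the
following property: for all moduli `Q ≥ 1` with `|Q - (c₀ + κ ⌊f n⌋)| ≤ log ^ W N` one has `|G(y,Q) - y log Q| ≤ ε y log Q`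
for all real `y` with `Q ≤ y ≤ Q log ^ A N`.

**(2)** Part (1) applies to all the functions `f t = ∑ a z t ^ z.1 (log t) ^ z.2` (finite sums) with a leading term `z₀`
whose coefficient is positive and whose exponent `c = z₀.1` is positive and not an integer; for example to `n ^ c`. -/
theorem result :
    (∀ (c : ℝ) (f : ℝ → ℝ), 0 < c → (∀ m : ℕ, c ≠ m) → SmoothlyVarying c f →
      ∀ (κ : ℤ), κ ≠ 0 → ∀ (B A U W a : ℕ) (ε : ℝ), 0 < ε → ε ≤ 1 → ∃ N₀ : ℕ, ∀ N : ℕ, N₀ ≤ N → ∀ x : ℕ,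
      (∀ n ∈ Icc 1 x, f n ≤ N) → (N : ℝ) ≤ Real.log N ^ a * f x → ∀ c₀ : ℤ, |c₀| ≤ B * N →
        (((Icc 1 x).filter fun n : ℕ => ¬ ∀ Q : ℤ, ((|Q - (c₀ + κ * (⌊f n⌋₊ : ℕ))| : ℤ) : ℝ) ≤ Real.log N ^ W →
          0 < Q → Good ε A N Q.toNat).card : ℝ) ≤ x / Real.log N ^ U) ∧
    (∀ (F : Finset (ℝ × ℝ)) (a : ℝ × ℝ → ℝ) (z₀ : ℝ × ℝ), z₀ ∈ F → 0 < a z₀ →
      (∀ z ∈ F, z ≠ z₀ → z.1 < z₀.1 ∨ z.1 = z₀.1 ∧ z.2 < z₀.2) →
      SmoothlyVarying z₀.1 (fun t => ∑ z ∈ F, a z * t ^ z.1 * Real.log t ^ z.2)) := by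
  refine ⟨fun c f hc hn hf κ hκ B A U W a ε hε hε1 => ?_, fun F a z₀ h1 h2 h3 => gp_sv F a z₀ h1 h2 h3⟩
  obtain ⟨N₀, h0⟩ := sv_var_near c f hc hn hf κ hκ B A U W a ε hε hε1
  exact ⟨N₀, fun N hN x hup hlow c₀ hc₀ => h0 N hN x hup hlow c₀ hc₀ (Good ε A N) fun Q _ h => h⟩

end Pool.Agent.Results.MP_5d318d_nt.NonIntegralOrderModuli
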